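import Mathlib

/-!
# Compound Poisson measures on a commutative monoid: total mass, multiplicative functions, Mecke
-/

set_option autoImplicit false

open MeasureTheory Set Filter Topology
open scoped ENNReal

namespace Pool.Agent.L0h88.FK

variable {E : Type*} [AddCommMonoid E] [MeasurableSpace E] [MeasurableAdd₂ E]

/-- convolution powers -/
noncomputable def pw (ν : Measure E) : ℕ → Measure E
  | 0 => Measure.dirac 0
  | n + 1 => ν.conv (pw ν n)

instance pw_finite (ν : Measure E) [IsFiniteMeasure ν] (n : ℕ) : IsFiniteMeasure (pw ν n) := by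
  induction n with
  | zero => unfold pw; infer_instance
  | succ n ih => unfold pw; infer_instance

lemma lintegral_pw_succ (ν : Measure E) [IsFiniteMeasure ν] (n : ℕ) {F : E → ℝ≥0∞}
    (hF : Measurable F) :
    ∫⁻ z, F z ∂(pw ν (n + 1)) = ∫⁻ x, ∫⁻ y, F (x + y) ∂(pw ν n) ∂ν := by
  show ∫⁻ z, F z ∂(ν.conv (pw ν n)) = _
  rw [Measure.lintegral_conv hF]

lemma pw_univ (ν : Measure E) [IsFiniteMeasure ν] (n : ℕ) : pw ν n univ = ν univ ^ n := by
  induction n with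
  | zero => simp [pw]
  | succ n ih =>
    have h := lintegral_pw_succ ν n (F := fun _ => 1) measurable_const
    simp only [lintegral_const, one_mul] at h
    rw [h, ih, pow_succ]

/-- supports -/
lemma pw_supp (ν : Measure E) [IsFiniteMeasure ν] {D : Set E} (hD : MeasurableSet D)
    (h0 : (0 : E) ∈ D) (hadd : ∀ x ∈ D, ∀ y ∈ D, x + y ∈ D) (hν : ∀ᵐ x ∂ν, x ∈ D) (n : ℕ) :
    ∀ᵐ x ∂(pw ν n), x ∈ D := by
  induction n with
  | zero =>
    show ∀ᵐ x ∂(Measure.dirac 0), x ∈ D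
    exact (ae_dirac_iff (p := fun x => x ∈ D) hD).2 h0
  | succ n ih =>
    rw [ae_iff]
    have h := lintegral_pw_succ ν n (F := indicator Dᶜ (fun _ => 1))
      (measurable_const.indicator hD.compl)
    rw [lintegral_indicator hD.compl] at h
    simp only [lintegral_const, one_mul, Measure.restrict_apply MeasurableSet.univ, univ_inter] at h
    show pw ν (n + 1) Dᶜ = 0
    rw [h]
    have h1 : ∫⁻ x, ∫⁻ y, indicator Dᶜ (fun _ => (1 : ℝ≥0∞)) (x + y) ∂(pw ν n) ∂ν =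
        ∫⁻ x, 0 ∂ν := by
      apply lintegral_congr_ae
      filter_upwards [hν] with x hx
      have : ∫⁻ y, indicator Dᶜ (fun _ => (1 : ℝ≥0∞)) (x + y) ∂(pw ν n) =
          ∫⁻ y, 0 ∂(pw ν n) := by
        apply lintegral_congr_ae
        filter_upwards [ih] with y hy
        rw [indicator_of_notMem]
        exact fun hcon => hcon (hadd x hx y hy)
      rw [this, lintegral_zero]
    rw [h1, lintegral_zero]

/-- multiplicative functions -/
lemma lintegral_pw_mul (ν : Measure E) [IsFiniteMeasure ν] {D : Set E} (hD : MeasurableSet D)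
    (h0 : (0 : E) ∈ D) (hadd : ∀ x ∈ D, ∀ y ∈ D, x + y ∈ D) (hν : ∀ᵐ x ∂ν, x ∈ D)
    {f : E → ℝ≥0∞} (hf : Measurable f) (hf0 : f 0 = 1)
    (hfm : ∀ x ∈ D, ∀ y ∈ D, f (x + y) = f x * f y) (n : ℕ) :
    ∫⁻ x, f x ∂(pw ν n) = (∫⁻ x, f x ∂ν) ^ n := by
  induction n with
  | zero =>
    show ∫⁻ x, f x ∂(Measure.dirac 0) = _
    rw [lintegral_dirac' _ hf, hf0, pow_zero]
  | succ n ih =>
    rw [lintegral_pw_succ ν n hf]
    have h1 : ∫⁻ x, ∫⁻ y, f (x + y) ∂(pw ν n) ∂ν =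
        ∫⁻ x, f x * (∫⁻ x, f x ∂ν) ^ n ∂ν := by
      apply lintegral_congr_ae
      filter_upwards [hν] with x hx
      have : ∫⁻ y, f (x + y) ∂(pw ν n) = ∫⁻ y, f x * f y ∂(pw ν n) := by
        apply lintegral_congr_ae
        filter_upwards [pw_supp ν hD h0 hadd hν n] with y hy
        exact hfm x hx y hy
      rw [this, lintegral_const_mul _ hf, ih]
    rw [h1, lintegral_mul_const _ hf, pow_succ, mul_comm]

/-- Mecke identity for convolution powers -/
lemma pw_mecke (ν : Measure E) [IsFiniteMeasure ν] {c : E → ℝ≥0∞} (hc : Measurable c)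
    (hcadd : ∀ x y, c (x + y) = c x + c y) (n : ℕ) : ∀ {F : E → ℝ≥0∞}, Measurable F →
    ∫⁻ x, c x * F x ∂(pw ν (n + 1)) =
      (n + 1 : ℕ) * ∫⁻ x, ∫⁻ y, c y * F (x + y) ∂ν ∂(pw ν n) := by
  induction n with
  | zero =>
    intro F hF
    rw [lintegral_pw_succ ν 0 (by fun_prop)]
    show ∫⁻ x, ∫⁻ y, c (x + y) * F (x + y) ∂(Measure.dirac 0) ∂ν =
      (0 + 1 : ℕ) * ∫⁻ x, ∫⁻ y, c y * F (x + y) ∂ν ∂(Measure.dirac 0)
    have e1 : ∀ x, ∫⁻ y, c (x + y) * F (x + y) ∂(Measure.dirac 0) = c x * F x := by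
      intro x
      rw [lintegral_dirac' _ (by fun_prop), add_zero]
    simp_rw [e1]
    rw [lintegral_dirac']
    · simp
    · exact Measurable.lintegral_prod_right' (f := fun p : E × E => c p.2 * F (p.1 + p.2))
        (by fun_prop)
  | succ n ih =>
    intro F hF
    rw [lintegral_pw_succ ν (n + 1) (by fun_prop)]
    have e1 : ∀ x, ∫⁻ y, c (x + y) * F (x + y) ∂(pw ν (n + 1)) =
        c x * ∫⁻ y, F (x + y) ∂(pw ν (n + 1)) +
          (n + 1 : ℕ) * ∫⁻ y, ∫⁻ z, c z * F (x + (y + z)) ∂ν ∂(pw ν n) := by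
      intro x
      have h1 : ∫⁻ y, c (x + y) * F (x + y) ∂(pw ν (n + 1)) =
          ∫⁻ y, (c x * F (x + y) + c y * F (x + y)) ∂(pw ν (n + 1)) := by
        congr 1; ext y; rw [hcadd]; ring
      rw [h1, lintegral_add_left (by fun_prop), lintegral_const_mul _ (by fun_prop),
        ih (F := fun y => F (x + y)) (by fun_prop)]
    simp_rw [e1]
    rw [lintegral_add_left]
    · have e2 : ∫⁻ x, c x * ∫⁻ y, F (x + y) ∂(pw ν (n + 1)) ∂ν =
          ∫⁻ x, ∫⁻ y, c y * F (x + y) ∂ν ∂(pw ν (n + 1)) := by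
        have h1 : ∀ x, c x * ∫⁻ y, F (x + y) ∂(pw ν (n + 1)) =
            ∫⁻ y, c x * F (x + y) ∂(pw ν (n + 1)) := fun x =>
          (lintegral_const_mul _ (by fun_prop)).symm
        simp_rw [h1]
        rw [lintegral_lintegral_swap (by
          exact Measurable.aemeasurable (f := fun p : E × E => c p.1 * F (p.1 + p.2)) (by fun_prop))]
        congr 1; ext y; congr 1; ext x; rw [add_comm]
      have e3 : ∫⁻ x, ((n + 1 : ℕ) : ℝ≥0∞) *
          ∫⁻ y, ∫⁻ z, c z * F (x + (y + z)) ∂ν ∂(pw ν n) ∂ν =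
          (n + 1 : ℕ) * ∫⁻ x, ∫⁻ y, c y * F (x + y) ∂ν ∂(pw ν (n + 1)) := by
        rw [lintegral_const_mul]
        · congr 1
          rw [lintegral_pw_succ ν n (F := fun x => ∫⁻ y, c y * F (x + y) ∂ν)]
          · simp_rw [add_assoc]
          · exact Measurable.lintegral_prod_right' (f := fun p : E × E => c p.2 * F (p.1 + p.2))
              (by fun_prop)
        · have h3 : Measurable (fun p : E × E => ∫⁻ z, c z * F (p.1 + (p.2 + z)) ∂ν) :=
            Measurable.lintegral_prod_right'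
              (f := fun q : (E × E) × E => c q.2 * F (q.1.1 + (q.1.2 + q.2))) (by fun_prop)
          exact h3.lintegral_prod_right'
      rw [e2, e3]
      push_cast
      ring
    · have h3 : Measurable (fun x : E => ∫⁻ y, F (x + y) ∂(pw ν (n + 1))) :=
        Measurable.lintegral_prod_right' (f := fun q : E × E => F (q.1 + q.2)) (by fun_prop)
      exact hc.mul h3

/-- compound Poisson measure -/
noncomputable def cp (ν : Measure E) : Measure E :=
  ENNReal.ofReal (Real.exp (-(ν univ).toReal)) •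
    Measure.sum (fun n : ℕ => ((n.factorial : ℝ≥0∞))⁻¹ • pw ν n)

omit [MeasurableAdd₂ E] in
lemma lintegral_cp (ν : Measure E) (F : E → ℝ≥0∞) :
    ∫⁻ x, F x ∂(cp ν) = ENNReal.ofReal (Real.exp (-(ν univ).toReal)) *
      ∑' n : ℕ, ((n.factorial : ℝ≥0∞))⁻¹ * ∫⁻ x, F x ∂(pw ν n) := by
  unfold cp
  rw [lintegral_smul_measure, lintegral_sum_measure, smul_eq_mul]
  simp_rw [lintegral_smul_measure, smul_eq_mul]

lemma tsum_exp (y : ℝ) (hy : 0 ≤ y) :
    ∑' n : ℕ, ((n.factorial : ℝ≥0∞))⁻¹ * (ENNReal.ofReal y) ^ n = ENNReal.ofReal (Real.exp y) := by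
  have h1 : HasSum (fun n : ℕ => y ^ n / n.factorial) (Real.exp y) := by
    rw [Real.exp_eq_exp_ℝ]
    exact NormedSpace.expSeries_div_hasSum_exp y
  rw [← h1.tsum_eq, ENNReal.ofReal_tsum_of_nonneg (fun n => by positivity) h1.summable]
  congr 1; ext n
  have hn : (0 : ℝ) < n.factorial := by positivity
  rw [ENNReal.ofReal_div_of_pos hn, ENNReal.ofReal_pow hy, ENNReal.ofReal_natCast,
    ENNReal.div_eq_inv_mul]

omit [MeasurableAdd₂ E] in
lemma lintegral_cp_of_pow (ν : Measure E) (F : E → ℝ≥0∞) (y : ℝ) (hy : 0 ≤ y)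
    (h : ∀ n, ∫⁻ x, F x ∂(pw ν n) = ENNReal.ofReal y ^ n) :
    ∫⁻ x, F x ∂(cp ν) = ENNReal.ofReal (Real.exp (-((ν univ).toReal - y))) := by
  rw [lintegral_cp]
  simp_rw [h]
  rw [tsum_exp y hy, ← ENNReal.ofReal_mul (Real.exp_pos _).le, ← Real.exp_add]
  congr 2
  ring

instance cp_prob (ν : Measure E) [IsFiniteMeasure ν] : IsProbabilityMeasure (cp ν) := by
  constructor
  have h := lintegral_cp_of_pow ν (fun _ => 1) (ν univ).toReal ENNReal.toReal_nonneg (fun n => by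
    rw [lintegral_const, one_mul, pw_univ, ENNReal.ofReal_toReal (measure_ne_top ν univ)])
  rw [lintegral_const, one_mul] at h
  rw [h, sub_self, neg_zero, Real.exp_zero, ENNReal.ofReal_one]

/-- multiplicative functions -/
lemma lintegral_cp_mul (ν : Measure E) [IsFiniteMeasure ν] {D : Set E} (hD : MeasurableSet D)
    (h0 : (0 : E) ∈ D) (hadd : ∀ x ∈ D, ∀ y ∈ D, x + y ∈ D) (hν : ∀ᵐ x ∂ν, x ∈ D)
    {f : E → ℝ≥0∞} (hf : Measurable f) (hf0 : f 0 = 1)
    (hfm : ∀ x ∈ D, ∀ y ∈ D, f (x + y) = f x * f y) (hfin : ∫⁻ x, f x ∂ν ≠ ∞) :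
    ∫⁻ x, f x ∂(cp ν) =
      ENNReal.ofReal (Real.exp (-((ν univ).toReal - (∫⁻ x, f x ∂ν).toReal))) := by
  apply lintegral_cp_of_pow _ _ _ ENNReal.toReal_nonneg
  intro n
  rw [lintegral_pw_mul ν hD h0 hadd hν hf hf0 hfm, ENNReal.ofReal_toReal hfin]

lemma cp_supp (ν : Measure E) [IsFiniteMeasure ν] {D : Set E} (hD : MeasurableSet D)
    (h0 : (0 : E) ∈ D) (hadd : ∀ x ∈ D, ∀ y ∈ D, x + y ∈ D) (hν : ∀ᵐ x ∂ν, x ∈ D) :
    ∀ᵐ x ∂(cp ν), x ∈ D := by
  unfold cp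
  apply Measure.ae_smul_measure
  rw [Measure.ae_sum_iff]
  intro n
  exact Measure.ae_smul_measure (pw_supp ν hD h0 hadd hν n) _

/-- Mecke identity for compound Poisson measures -/
lemma cp_mecke (ν : Measure E) [IsFiniteMeasure ν] {c : E → ℝ≥0∞} (hc : Measurable c)
    (hc0 : c 0 = 0) (hcadd : ∀ x y, c (x + y) = c x + c y) {F : E → ℝ≥0∞} (hF : Measurable F) :
    ∫⁻ x, c x * F x ∂(cp ν) = ∫⁻ x, ∫⁻ y, c y * F (x + y) ∂ν ∂(cp ν) := by
  rw [lintegral_cp, lintegral_cp]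
  congr 1
  rw [tsum_eq_zero_add' ENNReal.summable]
  have e0 : ∫⁻ x, c x * F x ∂(pw ν 0) = 0 := by
    show ∫⁻ x, c x * F x ∂(Measure.dirac 0) = 0
    rw [lintegral_dirac' _ (by fun_prop), hc0, zero_mul]
  rw [e0, mul_zero, zero_add]
  congr 1; ext n
  rw [pw_mecke ν hc hcadd n hF, ← mul_assoc]
  congr 1
  rw [Nat.factorial_succ]
  push_cast
  have h1 : ((n : ℝ≥0∞) + 1) ≠ 0 := by simp
  have h2 : ((n : ℝ≥0∞) + 1) ≠ ∞ := by
    exact ENNReal.add_ne_top.2 ⟨ENNReal.natCast_ne_top n, ENNReal.one_ne_top⟩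
  rw [ENNReal.mul_inv (Or.inl h1) (Or.inl h2), mul_comm ((n : ℝ≥0∞) + 1)⁻¹, mul_assoc,
    ENNReal.inv_mul_cancel h1 h2, mul_one]

end Pool.Agent.L0h88.FK
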