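import Pool.Agent.L0h88.FK.CP

/-!
# Infinite sums of independent compound Poisson vectors
-/

set_option autoImplicit false

open MeasureTheory Set Filter Topology ProbabilityTheory
open scoped ENNReal

namespace Pool.Agent.L0h88.FK

/-- triples of extended nonnegative reals -/
abbrev E3 : Type := ℝ≥0∞ × ℝ≥0∞ × ℝ≥0∞

instance : MeasurableAdd₂ E3 := by
  constructor
  have : (fun p : E3 × E3 => p.1 + p.2) = fun p : E3 × E3 =>
      (p.1.1 + p.2.1, p.1.2.1 + p.2.2.1, p.1.2.2 + p.2.2.2) := rfl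
  rw [this]
  fun_prop

/-- the sum of a sequence -/
noncomputable def S (ω : ℕ → E3) : E3 := (∑' k, (ω k).1, ∑' k, (ω k).2.1, ∑' k, (ω k).2.2)

/-- the partial sums -/
noncomputable def Sn (n : ℕ) (ω : ℕ → E3) : E3 := ∑ k ∈ Finset.range n, ω k

lemma S_meas : Measurable S := by
  unfold S
  refine Measurable.prodMk ?_ (Measurable.prodMk ?_ ?_)
  · exact Measurable.tsum fun k => by fun_prop
  · exact Measurable.tsum fun k => by fun_prop
  · exact Measurable.tsum fun k => by fun_prop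

lemma Sn_eq (n : ℕ) (ω : ℕ → E3) : Sn n ω = (∑ k ∈ Finset.range n, (ω k).1,
    ∑ k ∈ Finset.range n, (ω k).2.1, ∑ k ∈ Finset.range n, (ω k).2.2) := by
  unfold Sn
  refine Prod.ext ?_ (Prod.ext ?_ ?_)
  · simp only [Prod.fst_sum]
  · simp only [Prod.fst_sum, Prod.snd_sum]
  · simp only [Prod.snd_sum]

lemma S_update (ω : ℕ → E3) (k : ℕ) (x : E3) :
    S (Function.update ω k x) = x + S (Function.update ω k 0) := by
  have key : ∀ f : E3 → ℝ≥0∞, f 0 = 0 → ∑' i, f (Function.update ω k x i) =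
      f x + ∑' i, f (Function.update ω k 0 i) := by
    intro f hf
    rw [ENNReal.tsum_eq_add_tsum_ite k]
    simp only [Function.update_self]
    congr 1
    congr 1
    ext i
    by_cases h : i = k
    · subst h; simp [hf]
    · simp [h]
  unfold S
  refine Prod.ext ?_ (Prod.ext ?_ ?_)
  · exact key (fun y => y.1) rfl
  · exact key (fun y => y.2.1) rfl
  · exact key (fun y => y.2.2) rfl

section
variable {κ : ℕ → Measure E3} [∀ k, IsProbabilityMeasure (κ k)]

lemma upd_meas (k : ℕ) :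
    Measurable (fun p : (ℕ → E3) × E3 => Function.update p.1 k p.2) := by
  rw [measurable_pi_iff]
  intro i
  by_cases h : i = k
  · subst h
    simp only [Function.update_self]
    fun_prop
  · simp only [Function.update_of_ne h]
    fun_prop

/-- resampling one coordinate -/
lemma resample_map (k : ℕ) :
    ((Measure.infinitePi κ).prod (κ k)).map
      (fun p : (ℕ → E3) × E3 => Function.update p.1 k p.2) = Measure.infinitePi κ := by
  apply Measure.eq_infinitePi
  intro s t ht
  rw [Measure.map_apply (upd_meas k) (MeasurableSet.pi s.countable_toSet fun i _ => ht i)]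
  by_cases hk : k ∈ s
  · have e : (fun p : (ℕ → E3) × E3 => Function.update p.1 k p.2) ⁻¹' (Set.pi s t) =
        (Set.pi (s.erase k : Finset ℕ) t) ×ˢ (t k) := by
      ext p
      simp only [mem_preimage, Set.mem_pi, Finset.mem_coe, mem_prod, Finset.mem_erase]
      constructor
      · intro h
        refine ⟨fun i hi => ?_, ?_⟩
        · have := h i hi.2
          rwa [Function.update_of_ne hi.1] at this
        · have := h k hk
          rwa [Function.update_self] at this
      · rintro ⟨h1, h2⟩ i hi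
        by_cases hik : i = k
        · subst hik; rwa [Function.update_self]
        · rw [Function.update_of_ne hik]
          exact h1 i ⟨hik, hi⟩
    rw [e, Measure.prod_prod, Measure.infinitePi_pi _ (fun i _ => ht i), mul_comm,
      Finset.mul_prod_erase s (fun i => κ i (t i)) hk]
  · have e : (fun p : (ℕ → E3) × E3 => Function.update p.1 k p.2) ⁻¹' (Set.pi s t) =
        (Set.pi s t) ×ˢ univ := by
      ext p
      simp only [mem_preimage, Set.mem_pi, Finset.mem_coe, mem_prod, mem_univ, and_true]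
      constructor
      · intro h i hi
        have := h i hi
        rwa [Function.update_of_ne (show i ≠ k from fun hcon => hk (by rw [← hcon]; exact hi))] at this
      · intro h i hi
        rw [Function.update_of_ne (show i ≠ k from fun hcon => hk (by rw [← hcon]; exact hi))]
        exact h i hi
    rw [e, Measure.prod_prod, Measure.infinitePi_pi _ (fun i _ => ht i), measure_univ, mul_one]

lemma resample (k : ℕ) {F : (ℕ → E3) → ℝ≥0∞} (hF : Measurable F) :
    ∫⁻ ω, F ω ∂(Measure.infinitePi κ) =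
      ∫⁻ ω, ∫⁻ x, F (Function.update ω k x) ∂(κ k) ∂(Measure.infinitePi κ) := by
  conv_lhs => rw [← resample_map (κ := κ) k]
  rw [lintegral_map hF (upd_meas k), lintegral_prod _ (by
    exact (hF.comp (upd_meas k)).aemeasurable)]

/-- products -/
lemma lint_prod (n : ℕ) {f : E3 → ℝ≥0∞} (hf : Measurable f) :
    ∫⁻ ω, ∏ k ∈ Finset.range n, f (ω k) ∂(Measure.infinitePi κ) =
      ∏ k ∈ Finset.range n, ∫⁻ x, f x ∂(κ k) := by
  have h := lintegral_prod_eq_prod_lintegral_of_indepFun (μ := Measure.infinitePi κ)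
    (Finset.range n) (fun k ω => f (ω k))
    (iIndepFun_infinitePi (P := κ) (X := fun _ => f) (fun _ => hf)) (fun k => by fun_prop)
  rw [h]
  apply Finset.prod_congr rfl
  intro k _
  have h2 : Measure.map (fun ω : ℕ → E3 => ω k) (Measure.infinitePi κ) = κ k :=
    Measure.infinitePi_map_eval κ k
  conv_rhs => rw [← h2]
  rw [lintegral_map hf (by fun_prop)]

lemma all_mem {D : Set E3} (hκ : ∀ k, ∀ᵐ x ∂(κ k), x ∈ D) :
    ∀ᵐ ω ∂(Measure.infinitePi κ), ∀ k, ω k ∈ D := by
  rw [ae_all_iff]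
  intro k
  exact (measurePreserving_eval_infinitePi κ k).quasiMeasurePreserving.ae (hκ k)

end

section
variable {α : Type*} [MeasurableSpace α] (ρ : ℕ → Measure α) [∀ k, IsFiniteMeasure (ρ k)]
  (j : α → E3)

/-- the law of the sequence of independent compound Poisson vectors -/
noncomputable def PP : Measure (ℕ → E3) := Measure.infinitePi (fun k => cp ((ρ k).map j))

instance : IsProbabilityMeasure (PP ρ j) := by
  unfold PP; infer_instance

/-- Mecke identity -/
theorem mecke (hj : Measurable j) {G : E3 → ℝ≥0∞} (hG : Measurable G) :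
    ∫⁻ ω, (S ω).2.2 * G (S ω) ∂(PP ρ j) =
      ∫⁻ ω, ∫⁻ p, (j p).2.2 * G (S ω + j p) ∂(Measure.sum ρ) ∂(PP ρ j) := by
  have hS := S_meas
  have e1 : ∀ ω, (S ω).2.2 * G (S ω) = ∑' k, (ω k).2.2 * G (S ω) := by
    intro ω
    rw [ENNReal.tsum_mul_right]
    rfl
  simp_rw [e1, lintegral_sum_measure]
  rw [lintegral_tsum (fun k => by
    exact Measurable.aemeasurable (by fun_prop)), lintegral_tsum (fun k => by
    apply Measurable.aemeasurable
    exact Measurable.lintegral_prod_right'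
      (f := fun q : (ℕ → E3) × α => (j q.2).2.2 * G (S q.1 + j q.2)) (by fun_prop))]
  congr 1; ext k
  unfold PP
  rw [resample k (F := fun ω => (ω k).2.2 * G (S ω)) (by fun_prop),
    resample k (F := fun ω => ∫⁻ p, (j p).2.2 * G (S ω + j p) ∂(ρ k)) (by
      exact Measurable.lintegral_prod_right'
        (f := fun q : (ℕ → E3) × α => (j q.2).2.2 * G (S q.1 + j q.2)) (by fun_prop))]
  congr 1; ext ω
  simp only [Function.update_self]
  obtain ⟨R, hR⟩ : ∃ R, R = S (Function.update ω k 0) := ⟨_, rfl⟩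
  have e2 : ∀ x, S (Function.update ω k x) = x + R := fun x => by rw [S_update, hR]
  simp_rw [e2]
  have h := cp_mecke ((ρ k).map j) (c := fun x : E3 => x.2.2) (by fun_prop) rfl (fun _ _ => rfl)
    (F := fun x => G (x + R)) (by fun_prop)
  refine Eq.trans h ?_
  congr 1; ext x
  rw [lintegral_map (by fun_prop) hj]
  congr 1; ext p
  congr 2
  abel

/-- limits of multiplicative functions -/
theorem laplace (hj : Measurable j) {D : Set E3} (hD : MeasurableSet D)
    (h0 : (0 : E3) ∈ D) (hadd : ∀ x ∈ D, ∀ y ∈ D, x + y ∈ D)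
    (hν : ∀ k, ∀ᵐ p ∂(ρ k), j p ∈ D) {f : E3 → ℝ≥0∞} (hf : Measurable f) (hf0 : f 0 = 1)
    (hf1 : ∀ x, f x ≤ 1) (hfm : ∀ x ∈ D, ∀ y ∈ D, f (x + y) = f x * f y)
    (hfin : ∫⁻ p, (1 - f (j p)) ∂(Measure.sum ρ) ≠ ∞) {g : (ℕ → E3) → ℝ≥0∞}
    (hg : ∀ᵐ ω ∂(PP ρ j), Tendsto (fun n => f (Sn n ω)) atTop (𝓝 (g ω))) :
    ∫⁻ ω, g ω ∂(PP ρ j) =
      ENNReal.ofReal (Real.exp (-(∫⁻ p, (1 - f (j p)) ∂(Measure.sum ρ)).toReal)) := by
  have hν' : ∀ k, ∀ᵐ x ∂((ρ k).map j), x ∈ D := fun k =>
    (ae_map_iff hj.aemeasurable hD).2 (hν k)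
  have hκ : ∀ k, ∀ᵐ x ∂(cp ((ρ k).map j)), x ∈ D := fun k => cp_supp _ hD h0 hadd (hν' k)
  have hall : ∀ᵐ ω ∂(PP ρ j), ∀ k, ω k ∈ D := all_mem hκ
  have hSn : ∀ ω : ℕ → E3, (∀ k, ω k ∈ D) → ∀ n, Sn n ω ∈ D ∧
      f (Sn n ω) = ∏ k ∈ Finset.range n, f (ω k) := by
    intro ω hω n
    induction n with
    | zero => simp [Sn, h0, hf0]
    | succ n ih =>
      have e : Sn (n + 1) ω = Sn n ω + ω n := Finset.sum_range_succ _ _
      rw [e, Finset.prod_range_succ]
      exact ⟨hadd _ ih.1 _ (hω n), by rw [hfm _ ih.1 _ (hω n), ih.2]⟩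
  set u : ℕ → ℝ := fun k => (∫⁻ p, (1 - f (j p)) ∂(ρ k)).toReal with hu
  have hint : ∀ k, ∫⁻ x, f x ∂((ρ k).map j) ≠ ∞ := fun k => by
    refine ne_top_of_le_ne_top (measure_ne_top ((ρ k).map j) univ) ?_
    calc _ ≤ ∫⁻ x, 1 ∂((ρ k).map j) := lintegral_mono hf1
      _ = _ := by simp
  have hu2 : ∀ k, (((ρ k).map j) univ).toReal - (∫⁻ x, f x ∂((ρ k).map j)).toReal = u k := by
    intro k
    have hm : ((ρ k).map j) univ = ρ k univ := by
      rw [Measure.map_apply hj MeasurableSet.univ, preimage_univ]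
    have hf' : ∫⁻ x, f x ∂((ρ k).map j) = ∫⁻ p, f (j p) ∂(ρ k) := lintegral_map hf hj
    have h3 : ∫⁻ p, (1 - f (j p)) ∂(ρ k) = ρ k univ - ∫⁻ p, f (j p) ∂(ρ k) := by
      rw [lintegral_sub (by fun_prop) (by rw [← hf']; exact hint k)
        (Filter.Eventually.of_forall fun p => hf1 _)]
      simp
    rw [hu]
    simp only
    rw [h3, hm, hf', ENNReal.toReal_sub_of_le _ (measure_ne_top _ _)]
    calc _ ≤ ∫⁻ p, 1 ∂(ρ k) := lintegral_mono fun p => hf1 _
      _ = _ := by simp
  have hprod : ∀ n, ∫⁻ ω, f (Sn n ω) ∂(PP ρ j) =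
      ENNReal.ofReal (Real.exp (-∑ k ∈ Finset.range n, u k)) := by
    intro n
    have h1 : ∫⁻ ω, f (Sn n ω) ∂(PP ρ j) =
        ∫⁻ ω, ∏ k ∈ Finset.range n, f (ω k) ∂(PP ρ j) := by
      apply lintegral_congr_ae
      filter_upwards [hall] with ω hω
      exact (hSn ω hω n).2
    rw [h1]
    unfold PP
    rw [lint_prod n hf]
    have h2 : ∀ k, ∫⁻ x, f x ∂(cp ((ρ k).map j)) = ENNReal.ofReal (Real.exp (-u k)) := by
      intro k
      rw [lintegral_cp_mul _ hD h0 hadd (hν' k) hf hf0 hfm (hint k), hu2]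
    simp_rw [h2]
    rw [← ENNReal.ofReal_prod_of_nonneg (fun k _ => (Real.exp_pos _).le), ← Real.exp_sum,
      Finset.sum_neg_distrib]
  -- limits
  have hu0 : ∀ k, 0 ≤ u k := fun k => ENNReal.toReal_nonneg
  have hufin : ∀ k, ∫⁻ p, (1 - f (j p)) ∂(ρ k) ≠ ∞ := by
    intro k
    rw [lintegral_sum_measure] at hfin
    exact ENNReal.ne_top_of_tsum_ne_top hfin k
  have hsum : HasSum u (∫⁻ p, (1 - f (j p)) ∂(Measure.sum ρ)).toReal := by
    rw [lintegral_sum_measure] at hfin ⊢
    rw [ENNReal.tsum_toReal_eq (ENNReal.ne_top_of_tsum_ne_top hfin)]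
    exact ENNReal.hasSum_toReal hfin
  have hlim : Tendsto (fun n => ENNReal.ofReal (Real.exp (-∑ k ∈ Finset.range n, u k))) atTop
      (𝓝 (ENNReal.ofReal (Real.exp (-(∫⁻ p, (1 - f (j p)) ∂(Measure.sum ρ)).toReal)))) := by
    apply ENNReal.tendsto_ofReal
    exact (Real.continuous_exp.tendsto _).comp hsum.tendsto_sum_nat.neg
  have hdc : Tendsto (fun n => ∫⁻ ω, f (Sn n ω) ∂(PP ρ j)) atTop (𝓝 (∫⁻ ω, g ω ∂(PP ρ j))) := by
    apply tendsto_lintegral_of_dominated_convergence (fun _ => 1)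
    · intro n
      have : Measurable (Sn n) := by
        unfold Sn
        fun_prop
      exact hf.comp this
    · intro n
      exact Filter.Eventually.of_forall fun ω => hf1 _
    · simp
    · exact hg
  simp_rw [hprod] at hdc
  exact tendsto_nhds_unique hdc hlim

end

end Pool.Agent.L0h88.FK
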