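import Pool.Agent.L0h89.FK.Basic

/-!
# The exponent of the stable subordinator
-/

set_option autoImplicit false

open MeasureTheory Set Filter Topology
open scoped ENNReal

namespace Pool.Agent.L0h88.FK

open Pool.Agent.L0h89.FK

lemma kap_pos {s : ℝ} (h0 : 0 < s) (h1 : s < 1) : 0 < kap s :=
  div_pos h0 (Real.Gamma_pos_of_pos (by linarith))

/-- `1 - e^{-rq} = ∫_0^q r e^{-ru} du` -/
lemma one_sub_exp {r q : ℝ} (hr : 0 ≤ r) (hq : 0 ≤ q) :
    ENNReal.ofReal (1 - Real.exp (-(r * q))) =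
      ∫⁻ u in Ioc 0 q, ENNReal.ofReal (r * Real.exp (-(r * u))) := by
  have h1 : ∫ u in (0 : ℝ)..q, r * Real.exp (-(r * u)) = 1 - Real.exp (-(r * q)) := by
    have h2 : ∀ u ∈ uIcc 0 q, HasDerivAt (fun u => -Real.exp (-(r * u)))
        (r * Real.exp (-(r * u))) u := by
      intro u _
      have h3 : HasDerivAt (fun u => -(r * u)) (-(r * 1)) u :=
        ((hasDerivAt_id' u).const_mul r).neg
      have h4 : HasDerivAt (fun u => -Real.exp (-(r * u))) (-(Real.exp (-(r * u)) * -(r * 1))) u :=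
        h3.exp.neg
      have h5 : -(Real.exp (-(r * u)) * -(r * 1)) = r * Real.exp (-(r * u)) := by ring
      rw [← h5]
      exact h4
    rw [intervalIntegral.integral_eq_sub_of_hasDerivAt h2
      (Continuous.intervalIntegrable (by fun_prop) _ _)]
    simp only [mul_zero, neg_zero, Real.exp_zero]
    ring
  rw [← h1, intervalIntegral.integral_of_le hq]
  rw [ofReal_integral_eq_lintegral_ofReal]
  · have : Continuous fun u : ℝ => r * Real.exp (-(r * u)) := by fun_prop
    exact (this.integrableOn_Icc (a := 0) (b := q)).mono_set Ioc_subset_Icc_self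
  · exact Filter.Eventually.of_forall fun u => by positivity

/-- `∫ κ r^{-1-s} r e^{-ru} dr = s u^{s-1}` -/
lemma gam_int {s u : ℝ} (h0 : 0 < s) (h1 : s < 1) (hu : 0 < u) :
    ∫⁻ r, ENNReal.ofReal (r * Real.exp (-(r * u))) ∂(lev s) =
      ENNReal.ofReal (s * u ^ (s - 1)) := by
  have hk := kap_pos h0 h1
  unfold lev
  rw [lintegral_withDensity_eq_lintegral_mul _ (by fun_prop) (by fun_prop)]
  have h2 : ∫⁻ r in Ioi (0 : ℝ), ((fun r => ENNReal.ofReal (kap s * r ^ (-1 - s))) *
      fun r => ENNReal.ofReal (r * Real.exp (-(r * u)))) r =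
      ∫⁻ r in Ioi (0 : ℝ), ENNReal.ofReal (kap s * (r ^ (-s) * Real.exp (-u * r))) := by
    apply setLIntegral_congr_fun measurableSet_Ioi
    intro r hr
    have hr' : 0 < r := hr
    simp only [Pi.mul_apply]
    rw [← ENNReal.ofReal_mul (by positivity)]
    congr 1
    have : r ^ (-s) = r ^ (-1 - s) * r := by
      rw [← Real.rpow_add_one hr'.ne']
      congr 1
      ring
    rw [this, show -(r * u) = -u * r by ring]
    ring
  rw [h2]
  have h3 := Real.integral_rpow_mul_exp_neg_mul_Ioi (a := 1 - s) (r := u) (by linarith) hu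
  have h4 : ∫ r in Ioi (0 : ℝ), kap s * (r ^ (-s) * Real.exp (-u * r)) = s * u ^ (s - 1) := by
    rw [integral_const_mul]
    have h5 : ∫ r in Ioi (0 : ℝ), r ^ (-s) * Real.exp (-u * r) =
        (1 / u) ^ (1 - s) * Real.Gamma (1 - s) := by
      rw [← h3]
      congr 1; ext r
      congr 2
      · ring
      · ring
    rw [h5, kap]
    have hG := Real.Gamma_pos_of_pos (show 0 < 1 - s by linarith)
    have h6 : (1 / u) ^ (1 - s) = u ^ (s - 1) := by
      rw [one_div, Real.inv_rpow hu.le, ← Real.rpow_neg hu.le]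
      congr 1
      ring
    rw [h6]
    field_simp
  rw [← h4, ofReal_integral_eq_lintegral_ofReal]
  · by_contra hcon
    have := integral_undef hcon
    rw [h4] at this
    have : 0 < s * u ^ (s - 1) := by positivity
    linarith
  · rw [Filter.EventuallyLE, ae_restrict_iff' measurableSet_Ioi]
    exact Filter.Eventually.of_forall fun r hr => by
      have hr' : 0 < r := hr
      simp only [Pi.zero_apply]
      positivity

/-- the exponent -/
lemma lev_exp {s q : ℝ} (h0 : 0 < s) (h1 : s < 1) (hq : 0 ≤ q) :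
    ∫⁻ r, ENNReal.ofReal (1 - Real.exp (-(r * q))) ∂(lev s) = ENNReal.ofReal (q ^ s) := by
  have hae : ∀ᵐ r ∂(lev s), 0 < r := by
    have h : ∀ᵐ r ∂((volume : Measure ℝ).restrict (Ioi 0)), 0 < r := by
      rw [ae_restrict_iff' measurableSet_Ioi]
      exact Filter.Eventually.of_forall fun r hr => hr
    exact (withDensity_absolutelyContinuous _ _).ae_le h
  have e1 : ∫⁻ r, ENNReal.ofReal (1 - Real.exp (-(r * q))) ∂(lev s) =
      ∫⁻ r, (∫⁻ u in Ioc 0 q, ENNReal.ofReal (r * Real.exp (-(r * u)))) ∂(lev s) := by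
    apply lintegral_congr_ae
    filter_upwards [hae] with r hr
    exact one_sub_exp hr.le hq
  rw [e1, lintegral_lintegral_swap (by
    apply Measurable.aemeasurable
    have : Continuous (fun p : ℝ × ℝ => p.1 * Real.exp (-(p.1 * p.2))) := by fun_prop
    exact ENNReal.measurable_ofReal.comp this.measurable)]
  have e2 : ∫⁻ u in Ioc 0 q, ∫⁻ r, ENNReal.ofReal (r * Real.exp (-(r * u))) ∂(lev s) =
      ∫⁻ u in Ioc 0 q, ENNReal.ofReal (s * u ^ (s - 1)) := by
    apply setLIntegral_congr_fun measurableSet_Ioc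
    intro u hu
    exact gam_int h0 h1 hu.1
  rw [e2]
  have hint : IntervalIntegrable (fun u : ℝ => s * u ^ (s - 1)) volume 0 q :=
    (intervalIntegral.intervalIntegrable_rpow' (by linarith)).const_mul s
  have h5 : ∫ u in (0 : ℝ)..q, s * u ^ (s - 1) = q ^ s := by
    rw [intervalIntegral.integral_const_mul, integral_rpow (Or.inl (by linarith))]
    rw [sub_add_cancel, Real.zero_rpow h0.ne']
    field_simp
    ring
  rw [← h5, intervalIntegral.integral_of_le hq, ofReal_integral_eq_lintegral_ofReal]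
  · exact (intervalIntegrable_iff_integrableOn_Ioc_of_le hq).1 hint
  · rw [Filter.EventuallyLE, ae_restrict_iff' measurableSet_Ioc]
    exact Filter.Eventually.of_forall fun u hu => by
      have : 0 < u := hu.1
      simp only [Pi.zero_apply]
      positivity

lemma lev_pos (s : ℝ) : ∀ᵐ r ∂(lev s), 0 < r := by
  have h : ∀ᵐ r ∂((volume : Measure ℝ).restrict (Ioi 0)), 0 < r := by
    rw [ae_restrict_iff' measurableSet_Ioi]
    exact Filter.Eventually.of_forall fun r hr => hr
  exact (withDensity_absolutelyContinuous _ _).ae_le h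

lemma rho_good (s t : ℝ) : ∀ᵐ p ∂(rho s t), 0 < p.1 ∧ p.2 ∈ Icc 0 t := by
  unfold rho
  have h1 : ∀ᵐ p ∂((lev s).prod ((volume : Measure ℝ).restrict (Icc 0 t))), 0 < p.1 :=
    Measure.quasiMeasurePreserving_fst.ae (lev_pos s)
  have h2 : ∀ᵐ τ ∂((volume : Measure ℝ).restrict (Icc 0 t)), τ ∈ Icc 0 t :=
    ae_restrict_mem measurableSet_Icc
  have h3 : ∀ᵐ p ∂((lev s).prod ((volume : Measure ℝ).restrict (Icc 0 t))), p.2 ∈ Icc 0 t :=
    Measure.quasiMeasurePreserving_snd.ae h2
  filter_upwards [h1, h3] with p hp1 hp2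
  exact ⟨hp1, hp2⟩

/-- the exponent of the law of the covariance -/
lemma rho_exp {s t : ℝ} (h0 : 0 < s) (h1 : s < 1) (ht : 0 < t) {q : ℝ → ℝ} (hq : Continuous q)
    (hq0 : ∀ τ, 0 ≤ q τ) :
    ∫⁻ p, ENNReal.ofReal (1 - Real.exp (-(p.1 * q p.2))) ∂(rho s t) =
      ENNReal.ofReal (∫ τ in (0 : ℝ)..t, q τ ^ s) := by
  unfold rho
  have hc : Continuous (fun p : ℝ × ℝ => 1 - Real.exp (-(p.1 * q p.2))) := by fun_prop
  have hm : Measurable (fun p : ℝ × ℝ => ENNReal.ofReal (1 - Real.exp (-(p.1 * q p.2)))) :=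
    ENNReal.measurable_ofReal.comp hc.measurable
  rw [lintegral_prod_symm _ hm.aemeasurable]
  simp_rw [fun τ => lev_exp (s := s) (q := q τ) h0 h1 (hq0 τ)]
  have hc2 : Continuous fun τ => q τ ^ s := hq.rpow_const fun τ => Or.inr h0.le
  rw [intervalIntegral.integral_of_le ht.le, ← integral_Icc_eq_integral_Ioc,
    ofReal_integral_eq_lintegral_ofReal]
  · exact hc2.integrableOn_Icc
  · exact Filter.Eventually.of_forall fun τ => Real.rpow_nonneg (hq0 τ) s

end Pool.Agent.L0h88.FK
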